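import Mathlib

/-!
Symmetric Mahler conjecture in all dimensions (helper810). Definitions.
-/

set_option autoImplicit false

namespace Pool.Agent.H810R2.MA

open Finset MeasureTheory

/-- the space of `z = (x, u)` -/
abbrev Zs (n : ℕ) := (Fin n → ℝ) × (Fin n → ℝ)

/-- the point `(a·x, a·u)` of the plane -/
def LL {n : ℕ} (a : Fin n → ℝ) (z : Zs n) : ℝ × ℝ := (a ⬝ᵥ z.1, a ⬝ᵥ z.2)

/-- determinant of the selected forms -/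
noncomputable def D {n N : ℕ} (l : Fin N → Fin n → ℝ) (e : Fin n → Fin N) : ℝ :=
  Matrix.det (Matrix.of fun a => l (e a))

/-- indices which are not selected -/
def cpl {n N : ℕ} (e : Fin n → Fin N) : Finset (Fin N) := (univ.image e)ᶜ

/-- the integrand -/
noncomputable def term {n N : ℕ} (l : Fin N → Fin n → ℝ) (ρ S : Fin N → ℝ × ℝ → ℝ)
    (e : Fin n → Fin N) (z : Zs n) : ℝ :=
  (∏ a, ρ (e a) (LL (l (e a)) z)) * ∏ k ∈ cpl e, S k (LL (l k) z)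

/-- the functional (`n!` times the sum over subsets) -/
noncomputable def II {n N : ℕ} (l : Fin N → Fin n → ℝ) (ρ S : Fin N → ℝ × ℝ → ℝ) : ℝ :=
  ∑ e : Fin n → Fin N, D l e ^ 2 * ∫ z, term l ρ S e z

/-- direction dual to the `a`-th selected form, times the determinant -/
noncomputable def mv {n N : ℕ} (l : Fin N → Fin n → ℝ) (e : Fin n → Fin N) (a : Fin n) :
    Fin n → ℝ := fun j => (Matrix.of fun b => l (e b)).adjugate j a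

/-- a solution (subsolution) of the flow `∂ρ/∂t = ΔS`, `ρ ∂S/∂t ≥ |∇S|²` -/
structure Flow (t₁ t₂ : ℝ) (S ρ T Sx Su Sxx Suu : ℝ → ℝ × ℝ → ℝ) : Prop where
  hS : ∀ t ∈ Set.Ioo t₁ t₂, ∀ w, HasDerivAt (fun τ => S τ w) (T t w) t
  hρ : ∀ t ∈ Set.Ioo t₁ t₂, ∀ w, HasDerivAt (fun τ => ρ τ w) (Sxx t w + Suu t w) t
  hx : ∀ t ∈ Set.Ioo t₁ t₂, ∀ w, HasDerivAt (fun y => S t (y, w.2)) (Sx t w) w.1
  hu : ∀ t ∈ Set.Ioo t₁ t₂, ∀ w, HasDerivAt (fun y => S t (w.1, y)) (Su t w) w.2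
  hxx : ∀ t ∈ Set.Ioo t₁ t₂, ∀ w, HasDerivAt (fun y => Sx t (y, w.2)) (Sxx t w) w.1
  huu : ∀ t ∈ Set.Ioo t₁ t₂, ∀ w, HasDerivAt (fun y => Su t (w.1, y)) (Suu t w) w.2
  cS : ∀ t ∈ Set.Ioo t₁ t₂, Continuous (S t)
  cρ : ∀ t ∈ Set.Ioo t₁ t₂, Continuous (ρ t)
  cT : ∀ t ∈ Set.Ioo t₁ t₂, Continuous (T t)
  cSx : ∀ t ∈ Set.Ioo t₁ t₂, Continuous (Sx t)
  cSu : ∀ t ∈ Set.Ioo t₁ t₂, Continuous (Su t)
  cSxx : ∀ t ∈ Set.Ioo t₁ t₂, Continuous (Sxx t)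
  cSuu : ∀ t ∈ Set.Ioo t₁ t₂, Continuous (Suu t)
  bdd : ∃ C : ℝ, ∀ t ∈ Set.Ioo t₁ t₂, ∀ w, |S t w| ≤ C ∧ |ρ t w| ≤ C ∧ |T t w| ≤ C ∧
    |Sxx t w| ≤ C ∧ |Suu t w| ≤ C
  supp : ∃ R : ℝ, ∀ t ∈ Set.Ioo t₁ t₂, ∀ w, R < ‖w‖ → S t w = 0 ∧ ρ t w = 0 ∧ T t w = 0 ∧
    Sx t w = 0 ∧ Su t w = 0 ∧ Sxx t w = 0 ∧ Suu t w = 0
  pS : ∀ t ∈ Set.Ioo t₁ t₂, ∀ w, 0 ≤ S t w
  pρ : ∀ t ∈ Set.Ioo t₁ t₂, ∀ w, 0 ≤ ρ t w
  pT : ∀ t ∈ Set.Ioo t₁ t₂, ∀ w, 0 ≤ T t w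
  main : ∀ t ∈ Set.Ioo t₁ t₂, ∀ w, Sx t w ^ 2 + Su t w ^ 2 ≤ ρ t w * T t w

/-- profiles: smooth, `1` on `(-∞, a]`, `0` on `[1, ∞)`, nonincreasing -/
structure Prof (a : ℝ) (s : ℝ → ℝ) : Prop where
  smooth : ContDiff ℝ (⊤ : ℕ∞) s
  pos : 0 < a
  lt : a < 1
  one : ∀ v ≤ a, s v = 1
  zero : ∀ v, 1 ≤ v → s v = 0
  anti : Antitone s

/-- radial `S` -/
noncomputable def rS (s : ℝ → ℝ) (w : ℝ × ℝ) : ℝ := s (w.1 ^ 2 + w.2 ^ 2)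

/-- radial `ρ` -/
noncomputable def rρ (s : ℝ → ℝ) (w : ℝ × ℝ) : ℝ := -2 * deriv s (w.1 ^ 2 + w.2 ^ 2)

/-- Legendre chi function `∑ ζ^(2k+1)/(2k+1)²` -/
noncomputable def chi (ζ : ℂ) : ℂ := ∑' k : ℕ, ζ ^ (2 * k + 1) / ((2 * k + 1 : ℕ) : ℂ) ^ 2

/-- its derivative `∑ ζ^(2k)/(2k+1)` -/
noncomputable def chi1 (ζ : ℂ) : ℂ := ∑' k : ℕ, ζ ^ (2 * k) / ((2 * k + 1 : ℕ) : ℂ)

/-- the planar domain -/
def W : Set ℂ := chi '' Metric.ball 0 1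

/-- the inverse function -/
noncomputable def Zi : ℂ → ℂ := Function.invFunOn chi (Metric.ball 0 1)

/-- the derivative of the inverse function -/
noncomputable def Z1 (w : ℂ) : ℂ := (chi1 (Zi w))⁻¹

/-- plane to complex numbers -/
noncomputable def cx (w : ℝ × ℝ) : ℂ := (w.1 : ℂ) + (w.2 : ℂ) * Complex.I

open scoped Classical in
/-- `S_λ(w) = s(λ|ζ|²)` -/
noncomputable def Sf (s : ℝ → ℝ) (lam : ℝ) (w : ℝ × ℝ) : ℝ :=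
  if cx w ∈ W then s (lam * Complex.normSq (Zi (cx w))) else 0

open scoped Classical in
/-- `ρ_λ(w) = -2 λ s'(λ|ζ|²) |ζ'|²` -/
noncomputable def Rf (s : ℝ → ℝ) (lam : ℝ) (w : ℝ × ℝ) : ℝ :=
  if cx w ∈ W then
    -2 * lam * deriv s (lam * Complex.normSq (Zi (cx w))) * Complex.normSq (Z1 (cx w)) else 0

/-- `|Im artanh ζ|` as `|Im (ζ χ'(ζ))|` -/
noncomputable def bt (ζ : ℂ) : ℝ := |(ζ * chi1 ζ).im|

/-- the polytope `{|l_k·x| ≤ 1}` -/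
def PK {n N : ℕ} (l : Fin N → Fin n → ℝ) : Set (Fin n → ℝ) := {x | ∀ k, |l k ⬝ᵥ x| ≤ 1}

/-- the polar of a set -/
def pol {n : ℕ} (K : Set (Fin n → ℝ)) : Set (Fin n → ℝ) := {y | ∀ x ∈ K, x ⬝ᵥ y ≤ 1}

/-- support function of the polytope -/
noncomputable def hK {n N : ℕ} (l : Fin N → Fin n → ℝ) (y : Fin n → ℝ) : ℝ :=
  sSup ((fun x => x ⬝ᵥ y) '' PK l)

end Pool.Agent.H810R2.MA
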