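import Pool.Agent.H810R2.MA.Defs

/-!
Task IBP: integration by parts in the directions `mv l e a`.
-/

set_option autoImplicit false

namespace Pool.Agent.H810R2.MA

open Finset MeasureTheory

variable {n N : ℕ}

theorem ibp_mv_other (l : Fin N → Fin n → ℝ) (e : Fin n → Fin N) (a : Fin n) (k : Fin N) :
    l k ⬝ᵥ mv l e a = D l (Function.update e a k) := by
  have h1 := Matrix.cramer_transpose_apply (Matrix.of fun b => l (e b)) (l k) a
  have h2 : (Matrix.of fun b => l (e b)).updateRow a (l k) =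
      Matrix.of fun b => l (Function.update e a k b) := by
    ext i j
    by_cases h : i = a
    · subst h; simp
    · simp [Matrix.updateRow_ne h, Function.update_of_ne h]
  unfold D
  rw [← h2, ← h1, Matrix.cramer_eq_adjugate_mulVec, ← Matrix.adjugate_transpose]
  simp [Matrix.mulVec, dotProduct, mv, Matrix.transpose_apply, mul_comm]

theorem ibp_mv_same (l : Fin N → Fin n → ℝ) (e : Fin n → Fin N) (a b : Fin n) :
    l (e b) ⬝ᵥ mv l e a = if b = a then D l e else 0 := by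
  rw [ibp_mv_other]
  split_ifs with h
  · subst h; rw [Function.update_eq_self]
  · unfold D
    apply Matrix.det_zero_of_row_eq (i := b) (j := a) h
    ext j
    simp [Function.update_of_ne h]

theorem ibp_LL_continuous (a : Fin n → ℝ) : Continuous (fun z : Zs n => LL a z) := by
  unfold LL dotProduct
  fun_prop

/-- one direction -/
theorem ibp_one (l : Fin N → Fin n → ℝ) (e : Fin n → Fin N) (a : Fin n)
    (d : ℝ × ℝ) (V : Zs n)
    (hV : ∀ (c : Fin n → ℝ) (z : Zs n) (t : ℝ),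
      LL c (z + t • V) = LL c z + (t * (c ⬝ᵥ mv l e a)) • d)
    (φ φ' : ℝ × ℝ → ℝ) (ρ S S' : Fin N → ℝ × ℝ → ℝ)
    (h1 : ∀ w (c : ℝ), HasDerivAt (fun t : ℝ => φ (w + (t * c) • d)) (φ' w * c) 0)
    (hS : ∀ k w (c : ℝ), HasDerivAt (fun t : ℝ => S k (w + (t * c) • d)) (S' k w * c) 0)
    (c1 : Continuous φ) (c1' : Continuous φ')
    (cρ : ∀ k, Continuous (ρ k)) (cS : ∀ k, Continuous (S k)) (cS' : ∀ k, Continuous (S' k))
    (hc : ∃ R : ℝ, ∀ z : Zs n, R < ‖z‖ →
      (∃ b, b ≠ a ∧ ρ (e b) (LL (l (e b)) z) = 0) ∨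
      (∃ k ∈ cpl e, S k (LL (l k) z) = 0 ∧ S' k (LL (l k) z) = 0) ∨
      (φ (LL (l (e a)) z) = 0 ∧ φ' (LL (l (e a)) z) = 0)) :
    Integrable (fun z : Zs n => φ' (LL (l (e a)) z) *
        ((∏ b ∈ univ.erase a, ρ (e b) (LL (l (e b)) z)) * ∏ k ∈ cpl e, S k (LL (l k) z))) ∧
    (∀ j ∈ cpl e, Integrable (fun z : Zs n => φ (LL (l (e a)) z) * S' j (LL (l j) z) *
          ((∏ b ∈ univ.erase a, ρ (e b) (LL (l (e b)) z)) *
            ∏ k ∈ (cpl e).erase j, S k (LL (l k) z)))) ∧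
    D l e * ∫ z, φ' (LL (l (e a)) z) *
        ((∏ b ∈ univ.erase a, ρ (e b) (LL (l (e b)) z)) * ∏ k ∈ cpl e, S k (LL (l k) z)) =
      - ∑ j ∈ cpl e, D l (Function.update e a j) *
        ∫ z, φ (LL (l (e a)) z) * S' j (LL (l j) z) *
          ((∏ b ∈ univ.erase a, ρ (e b) (LL (l (e b)) z)) *
            ∏ k ∈ (cpl e).erase j, S k (LL (l k) z)) := by
  classical
  obtain ⟨R, hR⟩ := hc
  have cLL : ∀ c : Fin n → ℝ, Continuous (fun z : Zs n => LL c z) := ibp_LL_continuous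
  have cφL : Continuous (fun z : Zs n => φ (LL (l (e a)) z)) := c1.comp (cLL _)
  have cφ'L : Continuous (fun z : Zs n => φ' (LL (l (e a)) z)) := c1'.comp (cLL _)
  have cP : Continuous (fun z : Zs n => ∏ b ∈ univ.erase a, ρ (e b) (LL (l (e b)) z)) :=
    continuous_finsetProd _ fun b _ => (cρ _).comp (cLL _)
  have cQ : ∀ s : Finset (Fin N), Continuous (fun z : Zs n => ∏ k ∈ s, S k (LL (l k) z)) :=
    fun s => continuous_finsetProd _ fun b _ => (cS _).comp (cLL _)
  have cS'L : ∀ k, Continuous (fun z : Zs n => S' k (LL (l k) z)) :=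
    fun k => (cS' _).comp (cLL _)
  -- integrability
  have key : ∀ F : Zs n → ℝ, Continuous F → (∀ z, R < ‖z‖ → F z = 0) → Integrable F := by
    intro F hF h0
    apply hF.integrable_of_hasCompactSupport
    apply HasCompactSupport.intro (isCompact_closedBall (0 : Zs n) R)
    intro z hz
    apply h0
    simpa [Metric.mem_closedBall, dist_zero_right] using hz
  have hP0 : ∀ z : Zs n, (∃ b, b ≠ a ∧ ρ (e b) (LL (l (e b)) z) = 0) →
      ∏ b ∈ univ.erase a, ρ (e b) (LL (l (e b)) z) = 0 := by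
    rintro z ⟨b, hb, hb0⟩
    exact Finset.prod_eq_zero (Finset.mem_erase.2 ⟨hb, mem_univ _⟩) hb0
  have I1 : Integrable (fun z : Zs n => φ' (LL (l (e a)) z) *
        ((∏ b ∈ univ.erase a, ρ (e b) (LL (l (e b)) z)) * ∏ k ∈ cpl e, S k (LL (l k) z))) := by
    apply key _ (cφ'L.mul (cP.mul (cQ _)))
    intro z hz
    simp only [Pi.mul_apply]
    rcases hR z hz with h | ⟨k, hk, h, _⟩ | ⟨_, h⟩
    · rw [hP0 z h]; ring
    · rw [Finset.prod_eq_zero hk h]; ring
    · rw [h]; ring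
  have I1' : Integrable (fun z : Zs n => φ (LL (l (e a)) z) *
        ((∏ b ∈ univ.erase a, ρ (e b) (LL (l (e b)) z)) * ∏ k ∈ cpl e, S k (LL (l k) z))) := by
    apply key _ (cφL.mul (cP.mul (cQ _)))
    intro z hz
    simp only [Pi.mul_apply]
    rcases hR z hz with h | ⟨k, hk, h, _⟩ | ⟨h, _⟩
    · rw [hP0 z h]; ring
    · rw [Finset.prod_eq_zero hk h]; ring
    · rw [h]; ring
  have I2 : ∀ j ∈ cpl e, Integrable (fun z : Zs n => φ (LL (l (e a)) z) * S' j (LL (l j) z) *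
          ((∏ b ∈ univ.erase a, ρ (e b) (LL (l (e b)) z)) *
            ∏ k ∈ (cpl e).erase j, S k (LL (l k) z))) := by
    intro j hj
    apply key _ ((cφL.mul (cS'L j)).mul (cP.mul (cQ _)))
    intro z hz
    simp only [Pi.mul_apply]
    rcases hR z hz with h | ⟨k, hk, h, h'⟩ | ⟨h, _⟩
    · rw [hP0 z h]; ring
    · by_cases hkj : k = j
      · subst hkj; rw [h']; ring
      · rw [Finset.prod_eq_zero (Finset.mem_erase.2 ⟨hkj, hk⟩) h]; ring
    · rw [h]; ring
  refine ⟨I1, I2, ?_⟩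
  -- derivatives
  set G' : Zs n → ℝ := fun z => (∏ b ∈ univ.erase a, ρ (e b) (LL (l (e b)) z)) *
    ∑ j ∈ cpl e, (∏ k ∈ (cpl e).erase j, S k (LL (l k) z)) •
      (S' j (LL (l j) z) * (l j ⬝ᵥ mv l e a)) with hG'
  have hf : ∀ z : Zs n, HasLineDerivAt ℝ (fun z : Zs n => φ (LL (l (e a)) z))
      (φ' (LL (l (e a)) z) * D l e) z V := by
    intro z
    unfold HasLineDerivAt
    have := h1 (LL (l (e a)) z) (l (e a) ⬝ᵥ mv l e a)
    rw [ibp_mv_same, if_pos rfl] at this
    simpa only [hV, ibp_mv_same, if_true] using this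
  have hg : ∀ z : Zs n, HasLineDerivAt ℝ (fun z : Zs n =>
      (∏ b ∈ univ.erase a, ρ (e b) (LL (l (e b)) z)) * ∏ k ∈ cpl e, S k (LL (l k) z))
      (G' z) z V := by
    intro z
    unfold HasLineDerivAt
    have hP : ∀ t : ℝ, ∏ b ∈ univ.erase a, ρ (e b) (LL (l (e b)) (z + t • V)) =
        ∏ b ∈ univ.erase a, ρ (e b) (LL (l (e b)) z) := by
      intro t
      apply Finset.prod_congr rfl
      intro b hb
      rw [hV, ibp_mv_same, if_neg (Finset.ne_of_mem_erase hb)]
      simp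
    simp only [hP]
    apply HasDerivAt.const_mul
    have h := HasDerivAt.fun_finsetProd (u := cpl e) (x := (0 : ℝ))
      (f := fun k t => S k (LL (l k) (z + t • V)))
      (f' := fun k => S' k (LL (l k) z) * (l k ⬝ᵥ mv l e a))
      (fun k _ => by simpa only [hV] using hS k (LL (l k) z) (l k ⬝ᵥ mv l e a))
    simpa using h
  have hHaar : (volume : Measure (Zs n)).IsAddHaarMeasure :=
    Measure.prod.instIsAddHaarMeasure _ _
  have main := integral_bilinear_hasLineDerivAt_right_eq_neg_left_of_integrable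
    (μ := (volume : Measure (Zs n))) (B := ContinuousLinearMap.mul ℝ ℝ)
    (f := fun z : Zs n => φ (LL (l (e a)) z)) (f' := fun z => φ' (LL (l (e a)) z) * D l e)
    (g := fun z : Zs n => (∏ b ∈ univ.erase a, ρ (e b) (LL (l (e b)) z)) *
      ∏ k ∈ cpl e, S k (LL (l k) z)) (g' := G') (v := V)
    (by
      have := I1.const_mul (D l e)
      refine this.congr (Filter.Eventually.of_forall fun z => ?_)
      simp only [ContinuousLinearMap.mul_apply']; ring)
    (by
      have : Integrable (fun z : Zs n => ∑ j ∈ cpl e, (l j ⬝ᵥ mv l e a) *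
          (φ (LL (l (e a)) z) * S' j (LL (l j) z) *
          ((∏ b ∈ univ.erase a, ρ (e b) (LL (l (e b)) z)) *
            ∏ k ∈ (cpl e).erase j, S k (LL (l k) z)))) :=
        integrable_finsetSum _ fun j hj => (I2 j hj).const_mul _
      refine this.congr (Filter.Eventually.of_forall fun z => ?_)
      simp only [ContinuousLinearMap.mul_apply', hG', smul_eq_mul, Finset.mul_sum]
      exact Finset.sum_congr rfl fun j _ => by ring)
    (by
      refine I1'.congr (Filter.Eventually.of_forall fun z => ?_)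
      simp only [ContinuousLinearMap.mul_apply'])
    (fun z _ => hf z) (fun z _ => hg z)
  simp only [ContinuousLinearMap.mul_apply'] at main
  have e1 : ∫ z : Zs n, φ' (LL (l (e a)) z) * D l e *
      ((∏ b ∈ univ.erase a, ρ (e b) (LL (l (e b)) z)) * ∏ k ∈ cpl e, S k (LL (l k) z)) =
      D l e * ∫ z : Zs n, φ' (LL (l (e a)) z) *
      ((∏ b ∈ univ.erase a, ρ (e b) (LL (l (e b)) z)) * ∏ k ∈ cpl e, S k (LL (l k) z)) := by
    rw [← integral_const_mul]
    exact integral_congr_ae (Filter.Eventually.of_forall fun z => by ring)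
  have e2 : ∫ z : Zs n, φ (LL (l (e a)) z) * G' z =
      ∑ j ∈ cpl e, D l (Function.update e a j) *
        ∫ z, φ (LL (l (e a)) z) * S' j (LL (l j) z) *
          ((∏ b ∈ univ.erase a, ρ (e b) (LL (l (e b)) z)) *
            ∏ k ∈ (cpl e).erase j, S k (LL (l k) z)) := by
    simp only [← ibp_mv_other, ← integral_const_mul]
    rw [← integral_finsetSum _ fun j hj => (I2 j hj).const_mul _]
    refine integral_congr_ae (Filter.Eventually.of_forall fun z => ?_)
    simp only [hG', smul_eq_mul, Finset.mul_sum]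
    exact Finset.sum_congr rfl fun j _ => by ring
  rw [e1, e2] at main
  rw [main, neg_neg]

theorem ibp (l : Fin N → Fin n → ℝ) (e : Fin n → Fin N) (_he : Function.Injective e) (a : Fin n)
    (φ1 φ2 φ1x φ2u : ℝ × ℝ → ℝ) (ρ S Sx Su : Fin N → ℝ × ℝ → ℝ)
    (h1 : ∀ w, HasDerivAt (fun y => φ1 (y, w.2)) (φ1x w) w.1)
    (h2 : ∀ w, HasDerivAt (fun y => φ2 (w.1, y)) (φ2u w) w.2)
    (hx : ∀ k w, HasDerivAt (fun y => S k (y, w.2)) (Sx k w) w.1)
    (hu : ∀ k w, HasDerivAt (fun y => S k (w.1, y)) (Su k w) w.2)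
    (c1 : Continuous φ1) (c2 : Continuous φ2) (c1x : Continuous φ1x) (c2u : Continuous φ2u)
    (cρ : ∀ k, Continuous (ρ k)) (cS : ∀ k, Continuous (S k)) (cSx : ∀ k, Continuous (Sx k))
    (cSu : ∀ k, Continuous (Su k))
    (hc : ∃ R : ℝ, ∀ z : Zs n, R < ‖z‖ →
      (∃ b, b ≠ a ∧ ρ (e b) (LL (l (e b)) z) = 0) ∨
      (∃ k ∈ cpl e, S k (LL (l k) z) = 0 ∧ Sx k (LL (l k) z) = 0 ∧ Su k (LL (l k) z) = 0) ∨
      (φ1 (LL (l (e a)) z) = 0 ∧ φ2 (LL (l (e a)) z) = 0 ∧ φ1x (LL (l (e a)) z) = 0 ∧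
        φ2u (LL (l (e a)) z) = 0)) :
    D l e * ∫ z, (φ1x (LL (l (e a)) z) + φ2u (LL (l (e a)) z)) *
        ((∏ b ∈ univ.erase a, ρ (e b) (LL (l (e b)) z)) * ∏ k ∈ cpl e, S k (LL (l k) z)) =
      - ∑ j ∈ cpl e, D l (Function.update e a j) *
        ∫ z, (φ1 (LL (l (e a)) z) * Sx j (LL (l j) z) + φ2 (LL (l (e a)) z) * Su j (LL (l j) z)) *
          ((∏ b ∈ univ.erase a, ρ (e b) (LL (l (e b)) z)) *
            ∏ k ∈ (cpl e).erase j, S k (LL (l k) z)) := by
  obtain ⟨R, hR⟩ := hc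
  -- derivative helpers
  have dx : ∀ (F Fx : ℝ × ℝ → ℝ), (∀ w : ℝ × ℝ, HasDerivAt (fun y => F (y, w.2)) (Fx w) w.1) →
      ∀ (w : ℝ × ℝ) (c : ℝ), HasDerivAt (fun t : ℝ => F (w + (t * c) • ((1 : ℝ), (0 : ℝ))))
        (Fx w * c) 0 := by
    intro F Fx h w c
    have h0 : HasDerivAt (fun t : ℝ => w.1 + t * c) c 0 := by
      simpa using ((hasDerivAt_id (0 : ℝ)).mul_const c).const_add w.1
    have h' : HasDerivAt (fun y => F (y, w.2)) (Fx w) (w.1 + (0 : ℝ) * c) := by
      simpa using h w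
    have := h'.comp (0 : ℝ) h0
    refine this.congr_of_eventuallyEq (Filter.Eventually.of_forall fun t => ?_)
    simp only [Function.comp]
    congr 1
    ext <;> simp
  have du : ∀ (F Fu : ℝ × ℝ → ℝ), (∀ w : ℝ × ℝ, HasDerivAt (fun y => F (w.1, y)) (Fu w) w.2) →
      ∀ (w : ℝ × ℝ) (c : ℝ), HasDerivAt (fun t : ℝ => F (w + (t * c) • ((0 : ℝ), (1 : ℝ))))
        (Fu w * c) 0 := by
    intro F Fx h w c
    have h0 : HasDerivAt (fun t : ℝ => w.2 + t * c) c 0 := by
      simpa using ((hasDerivAt_id (0 : ℝ)).mul_const c).const_add w.2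
    have h' : HasDerivAt (fun y => F (w.1, y)) (Fx w) (w.2 + (0 : ℝ) * c) := by
      simpa using h w
    have := h'.comp (0 : ℝ) h0
    refine this.congr_of_eventuallyEq (Filter.Eventually.of_forall fun t => ?_)
    simp only [Function.comp]
    congr 1
    ext <;> simp
  obtain ⟨A1, A2, A3⟩ := ibp_one l e a (1, 0) (mv l e a, 0)
    (by
      intro c z t
      unfold LL
      ext <;> simp [dotProduct_add, dotProduct_smul])
    φ1 φ1x ρ S Sx (dx _ _ h1) (fun k => dx _ _ (hx k)) c1 c1x cρ cS cSx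
    ⟨R, fun z hz => by
      rcases hR z hz with h | ⟨k, hk, h, h', h''⟩ | ⟨h, h', h'', h'''⟩
      · exact Or.inl h
      · exact Or.inr (Or.inl ⟨k, hk, h, h'⟩)
      · exact Or.inr (Or.inr ⟨h, h''⟩)⟩
  obtain ⟨B1, B2, B3⟩ := ibp_one l e a (0, 1) (0, mv l e a)
    (by
      intro c z t
      unfold LL
      ext <;> simp [dotProduct_add, dotProduct_smul])
    φ2 φ2u ρ S Su (du _ _ h2) (fun k => du _ _ (hu k)) c2 c2u cρ cS cSu
    ⟨R, fun z hz => by
      rcases hR z hz with h | ⟨k, hk, h, h', h''⟩ | ⟨h, h', h'', h'''⟩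
      · exact Or.inl h
      · exact Or.inr (Or.inl ⟨k, hk, h, h''⟩)
      · exact Or.inr (Or.inr ⟨h', h'''⟩)⟩
  simp only [add_mul]
  rw [integral_add A1 B1, mul_add, A3, B3, ← neg_add, ← Finset.sum_add_distrib]
  congr 1
  apply Finset.sum_congr rfl
  intro j hj
  rw [integral_add (A2 j hj) (B2 j hj), mul_add]

end Pool.Agent.H810R2.MA
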