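import Pool.Agent.H810R2.MA.Defs

/-!
All statements of the project, with `sorry`. Never import this file in a finished module.
-/

set_option autoImplicit false

namespace Pool.Agent.H810R2.MA.Stubs

open Finset MeasureTheory Pool.Agent.H810R2.MA

variable {n N : ℕ}

/-! ### LIN : file Lin.lean -/

theorem mv_same (l : Fin N → Fin n → ℝ) (e : Fin n → Fin N) (a b : Fin n) :
    l (e b) ⬝ᵥ mv l e a = if b = a then D l e else 0 := by sorry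

theorem mv_other (l : Fin N → Fin n → ℝ) (e : Fin n → Fin N) (a : Fin n) (k : Fin N) :
    l k ⬝ᵥ mv l e a = D l (Function.update e a k) := by sorry

theorem cramer (l : Fin N → Fin n → ℝ) (e : Fin n → Fin N) (k : Fin N) (j : Fin n) :
    ∑ a, D l (Function.update e a k) * l (e a) j = D l e * l k j := by sorry

theorem D_not_inj (l : Fin N → Fin n → ℝ) (e : Fin n → Fin N) (he : ¬ Function.Injective e) :
    D l e = 0 := by sorry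

/-- Cauchy-Binet -/
theorem cauchy_binet (l : Fin N → Fin n → ℝ) (β : Fin N → ℝ) :
    (n.factorial : ℝ) * Matrix.det (∑ k, β k • Matrix.vecMulVec (l k) (l k)) =
      ∑ e : Fin n → Fin N, (∏ a, β (e a)) * D l e ^ 2 := by sorry

/-! ### ALG : file Alg.lean, the perfect square -/

theorem alg (l : Fin N → Fin n → ℝ) (ρ S T gx gu : Fin N → ℝ)
    (hρ : ∀ k, 0 ≤ ρ k) (hS : ∀ k, 0 ≤ S k) (hT : ∀ k, 0 ≤ T k)
    (h : ∀ k, gx k ^ 2 + gu k ^ 2 ≤ ρ k * T k) :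
    0 ≤ ∑ e : Fin n → Fin N, ∑ k ∈ cpl e,
      (D l e ^ 2 * (T k * (∏ a, ρ (e a)) * ∏ j ∈ (cpl e).erase k, S j) -
        ∑ a, D l e * D l (Function.update e a k) *
          ((gx (e a) * gx k + gu (e a) * gu k) *
            ((∏ b ∈ univ.erase a, ρ (e b)) * ∏ j ∈ (cpl e).erase k, S j))) := by sorry

/-! ### IBP : file Ibp.lean, integration by parts in the directions `mv l e a` -/

theorem ibp (l : Fin N → Fin n → ℝ) (e : Fin n → Fin N) (he : Function.Injective e) (a : Fin n)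
    (φ1 φ2 φ1x φ2u : ℝ × ℝ → ℝ) (ρ S Sx Su : Fin N → ℝ × ℝ → ℝ)
    (h1 : ∀ w, HasDerivAt (fun y => φ1 (y, w.2)) (φ1x w) w.1)
    (h2 : ∀ w, HasDerivAt (fun y => φ2 (w.1, y)) (φ2u w) w.2)
    (hx : ∀ k w, HasDerivAt (fun y => S k (y, w.2)) (Sx k w) w.1)
    (hu : ∀ k w, HasDerivAt (fun y => S k (w.1, y)) (Su k w) w.2)
    (c1 : Continuous φ1) (c2 : Continuous φ2) (c1x : Continuous φ1x) (c2u : Continuous φ2u)
    (cρ : ∀ k, Continuous (ρ k)) (cS : ∀ k, Continuous (S k)) (cSx : ∀ k, Continuous (Sx k))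
    (cSu : ∀ k, Continuous (Su k))
    (hc : ∃ R : ℝ, ∀ z : Zs n, R < ‖z‖ →
      (∃ b, b ≠ a ∧ ρ (e b) (LL (l (e b)) z) = 0) ∨
      (∃ k ∈ cpl e, S k (LL (l k) z) = 0 ∧ Sx k (LL (l k) z) = 0 ∧ Su k (LL (l k) z) = 0) ∨
      (φ1 (LL (l (e a)) z) = 0 ∧ φ2 (LL (l (e a)) z) = 0 ∧ φ1x (LL (l (e a)) z) = 0 ∧
        φ2u (LL (l (e a)) z) = 0)) :
    D l e * ∫ z, (φ1x (LL (l (e a)) z) + φ2u (LL (l (e a)) z)) *
        ((∏ b ∈ univ.erase a, ρ (e b) (LL (l (e b)) z)) * ∏ k ∈ cpl e, S k (LL (l k) z)) =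
      - ∑ j ∈ cpl e, D l (Function.update e a j) *
        ∫ z, (φ1 (LL (l (e a)) z) * Sx j (LL (l j) z) + φ2 (LL (l (e a)) z) * Su j (LL (l j) z)) *
          ((∏ b ∈ univ.erase a, ρ (e b) (LL (l (e b)) z)) *
            ∏ k ∈ (cpl e).erase j, S k (LL (l k) z)) := by sorry

/-! ### FLOW : file FlowMono.lean (uses ALG, IBP, LIN) -/

theorem flow_mono (l : Fin N → Fin n → ℝ) {t₁ t₂ : ℝ} {S ρ T Sx Su Sxx Suu : ℝ → ℝ × ℝ → ℝ}
    (h : Flow t₁ t₂ S ρ T Sx Su Sxx Suu) :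
    MonotoneOn (fun t => II l (fun _ => ρ t) (fun _ => S t)) (Set.Ioo t₁ t₂) := by sorry

/-! ### PROD : file Prod.lean -/

theorem prod_int (l : Fin N → Fin n → ℝ) (e : Fin n → Fin N) (he : D l e ≠ 0)
    (φ : Fin n → ℝ × ℝ → ℝ) (hφ : ∀ a, Integrable (φ a)) :
    Integrable (fun z : Zs n => ∏ a, φ a (LL (l (e a)) z)) ∧
    D l e ^ 2 * ∫ z : Zs n, ∏ a, φ a (LL (l (e a)) z) = ∏ a, ∫ w, φ a w := by sorry

/-! ### RAD : file Rad.lean, the radial identity (uses IBP, LIN, PROD) -/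

theorem rad_mass {a : ℝ} {s : ℝ → ℝ} (hs : Prof a s) :
    Integrable (rρ s) ∧ ∫ w, rρ s w = 2 * Real.pi := by sorry

theorem radial (l : Fin N → Fin n → ℝ) (hl : ∃ e, D l e ≠ 0) {a : ℝ} {s : ℝ → ℝ}
    (hs : Prof a s) :
    II l (fun _ => rρ s) (fun _ => rS s) = n.factorial * (2 * Real.pi) ^ n := by sorry

/-! ### CHI1 : file Chi1.lean, the function chi on the unit disc -/

theorem chi_deriv {ζ : ℂ} (h : ‖ζ‖ < 1) : HasDerivAt chi (chi1 ζ) ζ := by sorry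

theorem chi1_re {ζ : ℂ} (h : ‖ζ‖ < 1) : 1 / 2 ≤ (chi1 ζ).re := by sorry

theorem chi_inj : Set.InjOn chi (Metric.ball 0 1) := by sorry

theorem chi_norm {ζ : ℂ} (h : ‖ζ‖ < 1) : ‖chi ζ‖ ≤ 2 * ‖ζ‖ := by sorry

theorem chi_re_lt {ζ : ℂ} (h : ‖ζ‖ < 1) : |(chi ζ).re| < Real.pi ^ 2 / 8 := by sorry

theorem chi_conj {ζ : ℂ} (h : ‖ζ‖ < 1) :
    chi ((starRingEnd ℂ) ζ) = (starRingEnd ℂ) (chi ζ) := by sorry

theorem chi_zero : chi 0 = 0 := by sorry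

theorem chi1_zero : chi1 0 = 1 := by sorry

/-! ### CHI2 : file Chi2.lean, artanh and signs (uses CHI1) -/

theorem mul_chi1_im {ζ : ℂ} (h : ‖ζ‖ < 1) :
    (ζ * chi1 ζ).im = Real.arctan (2 * ζ.im / (1 - Complex.normSq ζ)) / 2 := by sorry

theorem chi_im_pos {ζ : ℂ} (h : ‖ζ‖ < 1) (h0 : 0 < ζ.im) : 0 < (chi ζ).im := by sorry

/-! ### INV : file Inv.lean, the inverse function (uses CHI1) -/

theorem W_open : IsOpen W := by sorry

theorem Zi_chi {ζ : ℂ} (h : ‖ζ‖ < 1) : Zi (chi ζ) = ζ := by sorry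

theorem Zi_norm {w : ℂ} (h : w ∈ W) : ‖Zi w‖ < 1 := by sorry

theorem chi_Zi {w : ℂ} (h : w ∈ W) : chi (Zi w) = w := by sorry

theorem Zi_deriv {w : ℂ} (h : w ∈ W) : HasDerivAt Zi (Z1 w) w := by sorry

theorem Z1_deriv : ∃ Z2 : ℂ → ℂ, ContinuousOn Z2 W ∧ ∀ w ∈ W, HasDerivAt Z1 (Z2 w) w := by sorry

theorem Z1_norm {w : ℂ} (h : w ∈ W) : ‖Z1 w‖ ≤ 2 := by sorry

theorem Z1_ne {w : ℂ} (h : w ∈ W) : Z1 w ≠ 0 := by sorry

theorem W_compact {r : ℝ} (hr : r < 1) : IsCompact {w | w ∈ W ∧ ‖Zi w‖ ≤ r} := by sorry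

/-! ### PDE : file Pde.lean (uses INV) -/

theorem flow_chi {a : ℝ} {s : ℝ → ℝ} (hs : Prof a s) {t₁ t₂ : ℝ} (h : t₂ < 0) :
    ∃ T Sx Su Sxx Suu : ℝ → ℝ × ℝ → ℝ,
      Flow t₁ t₂ (fun t => Sf s (Real.exp (-2 * t))) (fun t => Rf s (Real.exp (-2 * t)))
        T Sx Su Sxx Suu := by sorry

/-! ### KEY : file Key.lean (uses INV, FLOW, PDE, RAD), limit `λ → ∞` -/

theorem key (l : Fin N → Fin n → ℝ) (hl : ∃ e, D l e ≠ 0) {a : ℝ} {s : ℝ → ℝ}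
    (hs : Prof a s) {lam : ℝ} (h : 1 < lam) :
    n.factorial * (2 * Real.pi) ^ n ≤ II l (fun _ => Rf s lam) (fun _ => Sf s lam) := by sorry

/-! ### REAL : file Real.lean, the real side (uses LIN: cauchy_binet) -/

theorem real_side (l : Fin N → Fin n → ℝ) (hl : ∃ e, D l e ≠ 0)
    (S S' : Fin N → ℝ → ℝ) (hd : ∀ k u, HasDerivAt (S k) (S' k u) u)
    (hc : ∀ k, Continuous (S' k)) (he : ∀ k u, S k (-u) = S k u)
    (ha : ∀ k, AntitoneOn (S k) (Set.Ici 0)) (h0 : ∀ k u, 0 ≤ S k u)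
    (hs : ∃ R : ℝ, ∀ k u, R < |u| → S k u = 0) :
    ∑ e : Fin n → Fin N, D l e ^ 2 *
        ∫ u : Fin n → ℝ, (∏ a, |S' (e a) (l (e a) ⬝ᵥ u)|) * ∏ k ∈ cpl e, S k (l k ⬝ᵥ u) ≤
      n.factorial * (∏ k, S k 0) * ∫ y : Fin n → ℝ, Real.exp (-(hK l y)) := by sorry

/-! ### GAUGE : file Gauge.lean -/

theorem exp_hK (l : Fin N → Fin n → ℝ) (hl : ∃ e, D l e ≠ 0) :
    ∫ y : Fin n → ℝ, Real.exp (-(hK l y)) ≤
      n.factorial * (volume (pol (PK l))).toReal := by sorry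

/-! ### COMP : file Comp.lean, comparison of `Rf` with `|∂Sf/∂u|` (uses CHI1, CHI2, INV) -/

/-- for fixed `x`, `Sf` is `C¹`, even and nonincreasing in `|u|` -/
theorem Sf_real {a : ℝ} {s : ℝ → ℝ} (hs : Prof a s) {lam : ℝ} (h : 1 < lam) :
    ∃ Su : ℝ × ℝ → ℝ, Continuous Su ∧ (∃ R : ℝ, ∀ w, R < ‖w‖ → Su w = 0 ∧ Sf s lam w = 0) ∧
      (∀ w, HasDerivAt (fun y => Sf s lam (w.1, y)) (Su w) w.2) ∧
      (∀ x u, Sf s lam (x, -u) = Sf s lam (x, u)) ∧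
      (∀ x, AntitoneOn (fun u => Sf s lam (x, u)) (Set.Ici 0)) ∧
      (∀ w, Rf s lam w * bt (Zi (cx w)) = |Su w|) := by sorry

theorem Sf_supp {a : ℝ} {s : ℝ → ℝ} (hs : Prof a s) {lam : ℝ} (h : 1 < lam) (x u : ℝ)
    (hx : Real.pi ^ 2 / 8 ≤ |x|) : Sf s lam (x, u) = 0 := by sorry

theorem Sf_le {a : ℝ} {s : ℝ → ℝ} (hs : Prof a s) (lam : ℝ) (w : ℝ × ℝ) :
    0 ≤ Sf s lam w ∧ (0 ≤ lam → Sf s lam w ≤ 1) ∧ (0 ≤ lam → 0 ≤ Rf s lam w) := by sorry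

theorem Sf_cont {a : ℝ} {s : ℝ → ℝ} (hs : Prof a s) {lam : ℝ} (h : 1 < lam) :
    Continuous (Sf s lam) ∧ Continuous (Rf s lam) := by sorry

/-! ### BAD : file Bad.lean, small bad mass (uses INV, CHI2) -/

/-- off a set `B` of small mass, `1 ≤ c bt` -/
theorem bad_mass {c ε : ℝ} (hc : 4 / Real.pi < c) (hε : 0 < ε) :
    ∃ (a lam : ℝ) (s : ℝ → ℝ) (B : Set (ℝ × ℝ)), Prof a s ∧ 1 < lam ∧ MeasurableSet B ∧
      Integrable (Rf s lam) ∧ ∫ w, Rf s lam w ≤ 2 * Real.pi ∧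
      (∀ w, w ∉ B → Rf s lam w ≠ 0 → 1 ≤ c * bt (Zi (cx w))) ∧
      ∫ w in B, Rf s lam w ≤ ε := by sorry

/-! ### POLY : file Poly.lean, assembly for polytopes (uses KEY, REAL, GAUGE, COMP, BAD, PROD) -/

theorem mahler_poly (l : Fin N → Fin n → ℝ) (hl : ∃ e, D l e ≠ 0) :
    (4 : ℝ) ^ n ≤ n.factorial * (volume (PK l)).toReal * (volume (pol (PK l))).toReal := by sorry

/-! ### BODY : file Body.lean, general symmetric convex bodies -/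

theorem mahler_body (K : Set (EuclideanSpace ℝ (Fin n))) (hK : IsCompact K) (hc : Convex ℝ K)
    (hi : (interior K).Nonempty) (hs : ∀ x ∈ K, -x ∈ K) :
    (4 : ℝ) ^ n / n.factorial ≤
      (volume K).toReal * (volume {y : EuclideanSpace ℝ (Fin n) | ∀ x ∈ K, inner ℝ x y ≤ 1}).toReal := by
  sorry

/-! ### CUBE : file Cube.lean, the cube attains the bound -/

theorem cube_value : ∃ K : Set (EuclideanSpace ℝ (Fin n)), IsCompact K ∧ Convex ℝ K ∧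
    (interior K).Nonempty ∧ (∀ x ∈ K, -x ∈ K) ∧
      (volume K).toReal * (volume {y : EuclideanSpace ℝ (Fin n) | ∀ x ∈ K, inner ℝ x y ≤ 1}).toReal =
      (4 : ℝ) ^ n / n.factorial := by sorry

end Pool.Agent.H810R2.MA.Stubs
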